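import Pool.Agent.Lib.MP_9bfc50_al.Defs

namespace Pool.Agent.Lib.MP_9bfc50_al

variable {F : GClass}

/-! ### Basic closure properties -/

theorem IsFormationOrEmpty.iso (hF : IsFormationOrEmpty F) {G H : Type} [Group G] [Group H]
    (e : G ≃* H) (h : F G) : F H :=
  hF.image G H e.toMonoidHom e.surjective h

/-- If `Y` is in the class and `X → Z` factors through the surjection `X → Y`, then `Z` is. -/
theorem IsFormationOrEmpty.of_ker_le (hF : IsFormationOrEmpty F) {X Y Z : Type} [Group X]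
    [Group Y] [Group Z] (π : X →* Y) (ψ : X →* Z) (hπ : Function.Surjective π)
    (hψ : Function.Surjective ψ) (hk : π.ker ≤ ψ.ker) (h : F Y) : F Z := by
  refine hF.image Y Z (MonoidHom.liftOfSurjective π hπ ⟨ψ, hk⟩) ?_ h
  intro z
  obtain ⟨x, rfl⟩ := hψ z
  exact ⟨π x, by simp [MonoidHom.liftOfSurjective, MonoidHom.liftOfRightInverse_comp_apply]⟩

theorem IsFormationOrEmpty.quot_mono (hF : IsFormationOrEmpty F) {G : Type} [Group G]
    (N₁ N₂ : Subgroup G) [N₁.Normal] [N₂.Normal] (hle : N₁ ≤ N₂) (h : F (G ⧸ N₁)) :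
    F (G ⧸ N₂) :=
  hF.of_ker_le (QuotientGroup.mk' N₁) (QuotientGroup.mk' N₂) (QuotientGroup.mk'_surjective _)
    (QuotientGroup.mk'_surjective _) (by simpa using hle) h

theorem IsFormationOrEmpty.quot_inf (hF : IsFormationOrEmpty F) {G : Type} [Group G]
    (N₁ N₂ : Subgroup G) [N₁.Normal] [N₂.Normal] (h₁ : F (G ⧸ N₁)) (h₂ : F (G ⧸ N₂)) :
    F (G ⧸ (N₁ ⊓ N₂)) := by
  refine hF.subdirect (G ⧸ (N₁ ⊓ N₂)) (G ⧸ N₁) (G ⧸ N₂)
    (QuotientGroup.map (N₁ ⊓ N₂) N₁ (MonoidHom.id G) (by intro x hx; exact hx.1))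
    (QuotientGroup.map (N₁ ⊓ N₂) N₂ (MonoidHom.id G) (by intro x hx; exact hx.2))
    ?_ ?_ ?_ h₁ h₂
  · intro y
    obtain ⟨x, rfl⟩ := QuotientGroup.mk'_surjective _ y
    exact ⟨QuotientGroup.mk' _ x, rfl⟩
  · intro y
    obtain ⟨x, rfl⟩ := QuotientGroup.mk'_surjective _ y
    exact ⟨QuotientGroup.mk' _ x, rfl⟩
  · rw [eq_bot_iff]
    intro y hy
    obtain ⟨x, rfl⟩ := QuotientGroup.mk'_surjective _ y
    obtain ⟨h1, h2⟩ := Subgroup.mem_inf.mp hy
    have h1' : QuotientGroup.mk' N₁ x = 1 := h1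
    have h2' : QuotientGroup.mk' N₂ x = 1 := h2
    rw [QuotientGroup.mk'_apply, QuotientGroup.eq_one_iff] at h1' h2'
    simp only [Subgroup.mem_bot, QuotientGroup.mk'_apply, QuotientGroup.eq_one_iff]
    exact ⟨h1', h2'⟩

theorem IsFormationOrEmpty.trivial_of_mem (hF : IsFormationOrEmpty F) {G H : Type} [Group G]
    [Group H] [Subsingleton H] (h : F G) : F H :=
  hF.image G H 1 (fun _ => ⟨1, Subsingleton.elim _ _⟩) h

/-! ### The residual -/

theorem residual_le_of_mem {G : Type} [Group G] (N : Subgroup G) [hN : N.Normal]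
    (h : F (G ⧸ N)) : residual F G ≤ N :=
  sInf_le ⟨hN, h⟩

/-- For a finite group, if some quotient lies in the class then the residual is normal and the
quotient by it lies in the class. -/
theorem residual_spec (hF : IsFormationOrEmpty F) (G : Type) [Group G] [Finite G]
    (hne : ∃ (N : Subgroup G) (_ : N.Normal), F (G ⧸ N)) :
    ∃ _ : (residual F G).Normal, F (G ⧸ residual F G) := by
  classical
  set S : Set (Subgroup G) := {N : Subgroup G | ∃ _ : N.Normal, F (G ⧸ N)} with hS
  have hfin : S.Finite := Set.toFinite _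
  have hSne : S.Nonempty := hne
  obtain ⟨N, hN⟩ := hfin.exists_minimal hSne
  have hmin : ∀ N' ∈ S, N ≤ N' := by
    intro N' hN'
    obtain ⟨⟨h1, h2⟩, h3⟩ := hN
    obtain ⟨h4, h5⟩ := hN'
    have hmem : (N ⊓ N') ∈ S := ⟨inferInstance, hF.quot_inf N N' h2 h5⟩
    exact (h3 hmem inf_le_left).trans inf_le_right
  have hEq : residual F G = N := by
    apply le_antisymm
    · exact sInf_le hN.1
    · exact le_sInf hmin
  rw [hEq]
  exact hN.1

theorem exists_quot_mem (hF : IsFormation F) (G : Type) [Group G] :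
    ∃ (N : Subgroup G) (_ : N.Normal), F (G ⧸ N) := by
  obtain ⟨X, hX, hFX⟩ := hF.nonempty
  have : Subsingleton (G ⧸ (⊤ : Subgroup G)) := QuotientGroup.subsingleton_quotient_top
  exact ⟨⊤, inferInstance, hF.toIsFormationOrEmpty.trivial_of_mem hFX⟩

theorem residual_eq_bot (hF : IsFormationOrEmpty F) {G : Type} [Group G] (h : F G) :
    residual F G = ⊥ := by
  rw [eq_bot_iff]
  exact residual_le_of_mem ⊥ (hF.iso QuotientGroup.quotientBot.symm h)

theorem map_residual_le (hF : IsFormationOrEmpty F) {G H : Type} [Group G] [Group H] (e : G ≃* H) :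
    (residual F G).map e.toMonoidHom ≤ residual F H := by
  refine le_sInf ?_
  rintro N ⟨hN, hFN⟩
  rw [Subgroup.map_le_iff_le_comap]
  have : (N.comap e.toMonoidHom).Normal := hN.comap _
  refine residual_le_of_mem _ ?_
  refine hF.of_ker_le ((QuotientGroup.mk' N).comp e.toMonoidHom)
    (QuotientGroup.mk' (N.comap e.toMonoidHom)) ?_ (QuotientGroup.mk'_surjective _) ?_ hFN
  · exact (QuotientGroup.mk'_surjective N).comp e.surjective
  · intro x hx
    rw [MonoidHom.mem_ker] at hx ⊢
    simp only [MonoidHom.comp_apply, QuotientGroup.mk'_apply, QuotientGroup.eq_one_iff] at hx ⊢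
    exact hx

/-! ### The steps of chains -/

theorem MaxStep.map (hF : IsFormationOrEmpty F) {G : Type} [Group G] (e : G ≃* G)
    {A B : Subgroup G} (h : MaxStep F A B) :
    MaxStep F (A.map e.toMonoidHom) (B.map e.toMonoidHom) := by
  refine ⟨?_, ?_⟩
  · exact (apply_covBy_apply_iff e.mapSubgroup).mpr h.1
  · rintro x ⟨y, hy, rfl⟩
    have h1 : (residual F ↥B).map ((e.subgroupMap B).toMonoidHom) = residual F _ := by
      apply le_antisymm (map_residual_le hF _)
      have h2 := map_residual_le hF (e.subgroupMap B).symm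
      rw [Subgroup.map_le_iff_le_comap] at h2
      refine h2.trans ?_
      intro z hz
      exact ⟨(e.subgroupMap B).symm z, hz, (e.subgroupMap B).apply_symm_apply z⟩
    have hy' : y ∈ (residual F ↥B).map ((e.subgroupMap B).toMonoidHom) := by
      rw [h1]; exact hy
    obtain ⟨z, hz, rfl⟩ := hy'
    refine ⟨z, h.2 ⟨z, hz, rfl⟩, rfl⟩

theorem IsFSubnormal.map (hF : IsFormationOrEmpty F) {G : Type} [Group G] (e : G ≃* G)
    {H : Subgroup G} (h : IsFSubnormal F H) : IsFSubnormal F (H.map e.toMonoidHom) := by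
  have : ∀ A B : Subgroup G, Relation.ReflTransGen (MaxStep F) A B →
      Relation.ReflTransGen (MaxStep F) (A.map e.toMonoidHom) (B.map e.toMonoidHom) := by
    intro A B hAB
    induction hAB with
    | refl => exact Relation.ReflTransGen.refl
    | tail _ h2 ih => exact ih.tail (h2.map hF e)
  have h1 := this _ _ h
  have h2 : (⊤ : Subgroup G).map e.toMonoidHom = ⊤ :=
    Subgroup.map_top_of_surjective _ e.surjective
  rw [h2] at h1
  exact h1

theorem card_lt_of_lt {G : Type} [Group G] [Finite G] {A B : Subgroup G} (h : A < B) :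
    Nat.card A < Nat.card B := by
  refine lt_of_le_of_ne (Subgroup.card_le_of_le h.le) ?_
  intro h1
  exact h.ne (Subgroup.eq_of_le_of_card_ge h.le h1.ge)

/-- If all subgroups between `A` and `B` lie in the class then `A` is connected to `B`. -/
theorem chain_of_mem (hF : IsFormationOrEmpty F) {G : Type} [Group G] [Finite G]
    {A B : Subgroup G} (hAB : A ≤ B) (h : ∀ X : Subgroup G, A ≤ X → X ≤ B → F ↥X) :
    Relation.ReflTransGen (MaxStep F) A B := by
  classical
  have key : ∀ n : ℕ, ∀ X : Subgroup G, Nat.card X = n → A ≤ X → X ≤ B →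
      Relation.ReflTransGen (MaxStep F) A X := by
    intro n
    induction n using Nat.strong_induction_on with
    | _ n ih =>
      intro X hX hAX hXB
      rcases eq_or_lt_of_le hAX with rfl | hlt
      · exact Relation.ReflTransGen.refl
      · have hfin : {Y : Subgroup G | A ≤ Y ∧ Y < X}.Finite := Set.toFinite _
        obtain ⟨Y, hY⟩ := hfin.exists_maximal ⟨A, le_refl _, hlt⟩
        have hcov : Y ⋖ X := by
          refine ⟨hY.1.2, ?_⟩
          intro Z hYZ hZX
          exact absurd (hY.2 ⟨hY.1.1.trans hYZ.le, hZX⟩ hYZ.le) (not_le_of_gt hYZ)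
        have hcard : Nat.card Y < n := by
          rw [← hX]
          exact card_lt_of_lt hY.1.2
        refine (ih _ hcard Y rfl hY.1.1 (hY.1.2.le.trans hXB)).tail ⟨hcov, ?_⟩
        rw [residual_eq_bot hF (h X hAX hXB)]
        simp
  exact key _ B rfl hAB le_rfl

end Pool.Agent.Lib.MP_9bfc50_al
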