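import Pool.Agent.Lib.MP_9bfc50_al.Basic

namespace Pool.Agent.Lib.MP_9bfc50_al

variable {F : GClass} {f : ℕ → GClass}

/-- Groups with a normal `p`-subgroup whose quotient lies in `E`. -/
def Np (E : GClass) (p : ℕ) : GClass := fun G _ =>
  Finite G ∧ ∃ (P : Subgroup G) (_ : P.Normal), IsPGroup p ↥P ∧ E (G ⧸ P)

theorem Np.image {E : GClass} (hE : IsFormationOrEmpty E) {p : ℕ} {G H : Type} [Group G] [Group H]
    (φ : G →* H) (hφ : Function.Surjective φ) (h : Np E p G) : Np E p H := by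
  obtain ⟨hfin, P, hP, hPp, hEP⟩ := h
  have h1 : (P.map φ).Normal := hP.map φ hφ
  refine ⟨Finite.of_surjective φ hφ, P.map φ, h1, hPp.map φ, ?_⟩
  refine hE.of_ker_le (QuotientGroup.mk' P) ((QuotientGroup.mk' (P.map φ)).comp φ)
    (QuotientGroup.mk'_surjective _) ((QuotientGroup.mk'_surjective _).comp hφ) ?_ hEP
  intro x hx
  rw [QuotientGroup.ker_mk'] at hx
  rw [MonoidHom.mem_ker, MonoidHom.comp_apply, QuotientGroup.mk'_apply, QuotientGroup.eq_one_iff]
  exact ⟨x, hx, rfl⟩

theorem Np.of_ker {E : GClass} (hE : IsFormationOrEmpty E) {p : ℕ} {X Y : Type} [Group X] [Group Y]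
    [Finite X] (ψ : X →* Y) (hψ : Function.Surjective ψ) (hk : IsPGroup p ↥ψ.ker)
    (h : Np E p Y) : Np E p X := by
  obtain ⟨_, P, hP, hPp, hEP⟩ := h
  have h1 : (P.comap ψ).Normal := hP.comap ψ
  refine ⟨inferInstance, P.comap ψ, h1, hPp.comap_of_ker_isPGroup ψ hk, ?_⟩
  refine hE.of_ker_le ((QuotientGroup.mk' P).comp ψ) (QuotientGroup.mk' (P.comap ψ))
    ((QuotientGroup.mk'_surjective _).comp hψ) (QuotientGroup.mk'_surjective _) ?_ hEP
  intro x hx
  rw [MonoidHom.mem_ker, MonoidHom.comp_apply, QuotientGroup.mk'_apply,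
    QuotientGroup.eq_one_iff] at hx
  rw [QuotientGroup.ker_mk']
  exact hx

theorem Np.of_mem {E : GClass} (hE : IsFormationOrEmpty E) {p : ℕ} {G : Type} [Group G]
    (h : E G) : Np E p G :=
  ⟨hE.finite G h, ⊥, inferInstance, IsPGroup.of_bot, hE.iso QuotientGroup.quotientBot.symm h⟩

theorem mem_factorCentralizer {G : Type} [Group G] {K H : Subgroup G} [K.Normal] {g : G} :
    g ∈ factorCentralizer K H ↔ ∀ h ∈ H, g * h * g⁻¹ * h⁻¹ ∈ K := by
  unfold factorCentralizer
  rw [Subgroup.mem_comap, Subgroup.mem_centralizer_iff]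
  constructor
  · intro hg h hh
    have h1 := hg (QuotientGroup.mk' K h) ⟨h, hh, rfl⟩
    rw [← QuotientGroup.eq_one_iff]
    have h2 : ((g * h * g⁻¹ * h⁻¹ : G) : G ⧸ K) =
      QuotientGroup.mk' K g * QuotientGroup.mk' K h * (QuotientGroup.mk' K g)⁻¹ *
        (QuotientGroup.mk' K h)⁻¹ := rfl
    rw [h2, ← h1]
    group
  · rintro hg _ ⟨h, hh, rfl⟩
    have h1 := hg h hh
    rw [← QuotientGroup.eq_one_iff] at h1
    have h2 : ((g * h * g⁻¹ * h⁻¹ : G) : G ⧸ K) =
      QuotientGroup.mk' K g * QuotientGroup.mk' K h * (QuotientGroup.mk' K g)⁻¹ *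
        (QuotientGroup.mk' K h)⁻¹ := rfl
    rw [h2, mul_inv_eq_one, mul_inv_eq_iff_eq_mul] at h1
    exact h1.symm

theorem relIndex_eq_card_map {G : Type} [Group G] (K H : Subgroup G) [K.Normal] :
    K.relIndex H = Nat.card (H.map (QuotientGroup.mk' K)) := by
  rw [← MonoidHom.domRestrict_range, ← Subgroup.index_ker, MonoidHom.ker_domRestrict,
    QuotientGroup.ker_mk']
  rfl

/-- Chief factors above `N` with `G/N` in the class. -/
theorem factor_mem (hF : DefinedBy F f) (hf : ∀ p : ℕ, p.Prime → IsFormationOrEmpty (f p))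
    {G : Type} [Group G] (N : Subgroup G) [N.Normal] (hN : F (G ⧸ N)) (K H : Subgroup G)
    [hK : K.Normal] [hH : H.Normal] (hNK : N ≤ K) (hc : IsChiefFactor K H) {p : ℕ} (hp : p.Prime)
    (hdvd : p ∣ K.relIndex H) : f p (G ⧸ factorCentralizer K H) := by
  have hsurj := QuotientGroup.mk'_surjective N
  have hK' : (K.map (QuotientGroup.mk' N)).Normal := hK.map _ hsurj
  have hH' : (H.map (QuotientGroup.mk' N)).Normal := hH.map _ hsurj
  have hkerK : (QuotientGroup.mk' N).ker ≤ K := by rw [QuotientGroup.ker_mk']; exact hNK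
  have hkerH : (QuotientGroup.mk' N).ker ≤ H := hkerK.trans hc.lt.le
  have hKK : (K.map (QuotientGroup.mk' N)).comap (QuotientGroup.mk' N) = K :=
    Subgroup.comap_map_eq_self hkerK
  have hHH : (H.map (QuotientGroup.mk' N)).comap (QuotientGroup.mk' N) = H :=
    Subgroup.comap_map_eq_self hkerH
  have hc' : IsChiefFactor (K.map (QuotientGroup.mk' N)) (H.map (QuotientGroup.mk' N)) := by
    refine ⟨hK', hH', ?_, ?_⟩
    · refine lt_of_le_of_ne (Subgroup.map_mono hc.lt.le) ?_
      intro h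
      apply hc.lt.ne
      rw [← hKK, ← hHH, h]
    · intro L hL h1 h2
      have hL' : (L.comap (QuotientGroup.mk' N)).Normal := hL.comap _
      have hLL : (L.comap (QuotientGroup.mk' N)).map (QuotientGroup.mk' N) = L :=
        Subgroup.map_comap_eq_self_of_surjective hsurj L
      have h3 : K ≤ L.comap (QuotientGroup.mk' N) := by
        rw [← hKK]; exact Subgroup.comap_mono h1
      have h4 : L.comap (QuotientGroup.mk' N) ≤ H := by
        rw [← hHH]; exact Subgroup.comap_mono h2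
      rcases hc.eq_or_eq _ hL' h3 h4 with h5 | h5
      · left; rw [← hLL, h5]
      · right; rw [← hLL, h5]
  have hidx : (K.map (QuotientGroup.mk' N)).relIndex (H.map (QuotientGroup.mk' N)) =
      K.relIndex H := by
    rw [← Subgroup.relIndex_comap, hKK]
  have h1 := ((hF (G ⧸ N)).mp hN).2 _ _ hc' p hp (by rw [hidx]; exact hdvd)
  refine (hf p hp).of_ker_le ((QuotientGroup.mk' (factorCentralizer (K.map (QuotientGroup.mk' N))
    (H.map (QuotientGroup.mk' N)))).comp (QuotientGroup.mk' N))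
    (QuotientGroup.mk' (factorCentralizer K H)) ((QuotientGroup.mk'_surjective _).comp hsurj)
    (QuotientGroup.mk'_surjective _) ?_ h1
  intro x hx
  rw [MonoidHom.mem_ker, MonoidHom.comp_apply, QuotientGroup.mk'_apply,
    QuotientGroup.eq_one_iff, mem_factorCentralizer] at hx
  rw [QuotientGroup.ker_mk', mem_factorCentralizer]
  intro h hh
  have h2 := hx (QuotientGroup.mk' N h) ⟨h, hh, rfl⟩
  rw [← hKK, Subgroup.mem_comap]
  simpa using h2

end Pool.Agent.Lib.MP_9bfc50_al
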