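import Mathlib

/-!
Formations of finite groups, local formations, the residual, subnormality with respect to a
formation, and the lattice property.
-/

namespace Pool.Agent.Lib.MP_9bfc50_al

/-- A class of groups. -/
abbrev GClass := (G : Type) → [Group G] → Prop

/-- A class of finite groups closed under homomorphic images and under subdirect products
(of two, hence of finitely many, groups). It may be empty. -/
structure IsFormationOrEmpty (F : GClass) : Prop where
  finite : ∀ (G : Type) [Group G], F G → Finite G
  image : ∀ (G H : Type) [Group G] [Group H] (f : G →* H), Function.Surjective f → F G → F H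
  subdirect : ∀ (G A B : Type) [Group G] [Group A] [Group B] (f : G →* A) (g : G →* B),
    Function.Surjective f → Function.Surjective g → f.ker ⊓ g.ker = ⊥ → F A → F B → F G

/-- A formation: a nonempty class of finite groups closed under homomorphic images and finite
subdirect products. -/
structure IsFormation (F : GClass) : Prop extends IsFormationOrEmpty F where
  nonempty : ∃ (G : Type) (_ : Group G), F G

/-- `H / K` is a chief factor of `G`. -/
structure IsChiefFactor {G : Type} [Group G] (K H : Subgroup G) : Prop where
  normal_bot : K.Normal
  normal_top : H.Normal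
  lt : K < H
  eq_or_eq : ∀ N : Subgroup G, N.Normal → K ≤ N → N ≤ H → N = K ∨ N = H

/-- The centraliser `C_G(H/K)`: the preimage in `G` of the centraliser of `HK/K` in `G/K`. -/
def factorCentralizer {G : Type} [Group G] (K H : Subgroup G) [K.Normal] : Subgroup G :=
  (Subgroup.centralizer ((H.map (QuotientGroup.mk' K) : Subgroup (G ⧸ K)) : Set (G ⧸ K))).comap
    (QuotientGroup.mk' K)

instance factorCentralizer_normal {G : Type} [Group G] (K H : Subgroup G) [K.Normal]
    [hH : H.Normal] : (factorCentralizer K H).Normal := by
  unfold factorCentralizer
  have : (H.map (QuotientGroup.mk' K)).Normal :=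
    hH.map _ (QuotientGroup.mk'_surjective K)
  infer_instance

/-- `F` is the class of all finite groups `G` such that `G / C_G(H/K)` lies in `f p` for every
chief factor `H/K` of `G` and every prime `p` dividing `|H/K|`. -/
def DefinedBy (F : GClass) (f : ℕ → GClass) : Prop :=
  ∀ (G : Type) [Group G], F G ↔ (Finite G ∧ ∀ (K H : Subgroup G) [K.Normal] [H.Normal],
    IsChiefFactor K H → ∀ p : ℕ, p.Prime → p ∣ K.relIndex H → f p (G ⧸ factorCentralizer K H))

/-- A local formation. -/
def IsLocalFormation (F : GClass) : Prop :=
  IsFormation F ∧ ∃ f : ℕ → GClass, (∀ p : ℕ, p.Prime → IsFormationOrEmpty (f p)) ∧ DefinedBy F f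

/-- The residual `G^F`, the intersection of all normal `N` with `G/N` in `F` (for a formation `F`
and a finite group `G` this is the smallest such `N`). -/
def residual (F : GClass) (G : Type) [Group G] : Subgroup G :=
  sInf {N : Subgroup G | ∃ _ : N.Normal, F (G ⧸ N)}

/-- `A` is a maximal subgroup of `B` that contains the residual `B^F`. -/
def MaxStep (F : GClass) {G : Type} [Group G] (A B : Subgroup G) : Prop :=
  A ⋖ B ∧ (residual F ↥B).map B.subtype ≤ A

/-- `H` is `F`-subnormal in `G`. -/
def IsFSubnormal (F : GClass) {G : Type} [Group G] (H : Subgroup G) : Prop :=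
  Relation.ReflTransGen (MaxStep F) H ⊤

/-- Property (L): in every finite group the `F`-subnormal subgroups form a sublattice of the
subgroup lattice. -/
def PropertyL (F : GClass) : Prop :=
  ∀ (G : Type) [Group G] [Finite G] (H K : Subgroup G), IsFSubnormal F H → IsFSubnormal F K →
    IsFSubnormal F (H ⊓ K) ∧ IsFSubnormal F (H ⊔ K)

/-- In every finite group the join of two `F`-subnormal subgroups is `F`-subnormal. -/
def JoinClosed (F : GClass) : Prop :=
  ∀ (G : Type) [Group G] [Finite G] (H K : Subgroup G), IsFSubnormal F H → IsFSubnormal F K →
    IsFSubnormal F (H ⊔ K)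

/-- The class contains every subgroup of each of its members. -/
def SubgroupClosed (F : GClass) : Prop :=
  ∀ (G : Type) [Group G] (H : Subgroup G), F G → F ↥H

end Pool.Agent.Lib.MP_9bfc50_al
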