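import Pool.Agent.Lib.MP_9bfc50_al.PGroup

namespace Pool.Agent.Lib.MP_9bfc50_al

variable {F : GClass} {f : ℕ → GClass}

theorem exists_surj_of_ker_le {X Y Z : Type} [Group X] [Group Y] [Group Z] (π : X →* Y)
    (ψ : X →* Z) (hπ : Function.Surjective π) (hψ : Function.Surjective ψ)
    (hk : π.ker ≤ ψ.ker) : ∃ φ : Y →* Z, Function.Surjective φ := by
  refine ⟨MonoidHom.liftOfSurjective π hπ ⟨ψ, hk⟩, ?_⟩
  intro z
  obtain ⟨x, rfl⟩ := hψ z
  exact ⟨π x, by simp [MonoidHom.liftOfSurjective, MonoidHom.liftOfRightInverse_comp_apply]⟩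

theorem subgroupClosed_of_Np (hF : DefinedBy F f)
    (hf : ∀ p : ℕ, p.Prime → IsFormationOrEmpty (f p))
    (hNp : ∀ q : ℕ, q.Prime → SubgroupClosed (Np (f q) q)) : SubgroupClosed F := by
  classical
  intro G _ H hG
  have hGfin : Finite G := ((hF G).mp hG).1
  refine (hF H).mpr ⟨inferInstance, ?_⟩
  intro B A hB hA hc q hq hdvd
  -- a minimal normal subgroup of `G` covering the factor
  let S : Set (Subgroup G) := {N | N.Normal ∧ A ≤ B ⊔ (A ⊓ N.subgroupOf H)}
  have hSne : S.Nonempty := by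
    refine ⟨⊤, inferInstance, ?_⟩
    rw [Subgroup.top_subgroupOf, inf_top_eq]
    exact le_sup_right
  obtain ⟨N, hN⟩ := (Set.toFinite S).exists_minimal hSne
  have hNn : N.Normal := hN.1.1
  have hNbot : ⊥ < N := by
    rw [bot_lt_iff_ne_bot]
    rintro rfl
    have h1 := hN.1.2
    rw [Subgroup.bot_subgroupOf, inf_bot_eq, sup_bot_eq] at h1
    exact absurd hc.lt (not_lt_of_ge h1)
  let T : Set (Subgroup G) := {N₀ | N₀.Normal ∧ N₀ < N}
  obtain ⟨N₀, hN₀⟩ := (Set.toFinite T).exists_maximal ⟨⊥, inferInstance, hNbot⟩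
  have hN₀n : N₀.Normal := hN₀.1.1
  have hc' : IsChiefFactor N₀ N := by
    refine ⟨hN₀n, hNn, hN₀.1.2, ?_⟩
    intro L hL h1 h2
    rcases eq_or_lt_of_le h2 with h | h
    · exact Or.inr h
    · exact Or.inl (le_antisymm (hN₀.2 ⟨hL, h⟩ h1) h1)
  have hNH : (N.subgroupOf H).Normal := inferInstance
  have hN₀H : (N₀.subgroupOf H).Normal := inferInstance
  have hA0 : A ⊓ N₀.subgroupOf H ≤ B := by
    rcases hc.eq_or_eq (B ⊔ (A ⊓ N₀.subgroupOf H)) inferInstance le_sup_left
      (sup_le hc.lt.le inf_le_left) with h | h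
    · exact le_sup_right.trans h.le
    · exact absurd hN₀.1.2 (not_lt_of_ge (hN.2 ⟨hN₀n, h.ge⟩ hN₀.1.2.le))
  have hAeq : B ⊔ (A ⊓ N.subgroupOf H) = A :=
    le_antisymm (sup_le hc.lt.le inf_le_left) hN.1.2
  -- divisibility
  have hdvd' : q ∣ N₀.relIndex N := by
    have h1 : B.relIndex A = B.relIndex (A ⊓ N.subgroupOf H) := by
      conv_lhs => rw [← hAeq, Subgroup.relIndex_sup_left]
    have h2 : B.relIndex (A ⊓ N.subgroupOf H) ∣
        (A ⊓ N₀.subgroupOf H).relIndex (A ⊓ N.subgroupOf H) :=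
      Subgroup.relIndex_dvd_of_le_left _ hA0
    have h3 : (A ⊓ N₀.subgroupOf H).relIndex (A ⊓ N.subgroupOf H) =
        (N₀.subgroupOf H).relIndex (A ⊓ N.subgroupOf H) := by
      rw [← Subgroup.inf_relIndex_right, ← Subgroup.inf_relIndex_right (N₀.subgroupOf H)]
      congr 1
      ext x
      simp only [Subgroup.mem_inf]
      tauto
    have h4 : (N₀.subgroupOf H).relIndex (A ⊓ N.subgroupOf H) =
        N₀.relIndex ((A ⊓ N.subgroupOf H).map H.subtype) := by
      rw [← Subgroup.relIndex_comap]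
      rfl
    have h5 : N₀.relIndex ((A ⊓ N.subgroupOf H).map H.subtype) ∣ N₀.relIndex N := by
      rw [relIndex_eq_card_map, relIndex_eq_card_map]
      refine Subgroup.card_dvd_of_le (Subgroup.map_mono ?_)
      rintro _ ⟨x, hx, rfl⟩
      exact (Subgroup.mem_inf.mp hx).2
    exact (h1 ▸ hdvd).trans (h2.trans ((h3.trans h4) ▸ h5))
  have hC := ((hF G).mp hG).2 N₀ N hc' q hq hdvd'
  have h1 : Np (f q) q (G ⧸ factorCentralizer N₀ N) := Np.of_mem (hf q hq) hC
  have h2 : Np (f q) q ↥(H.map (QuotientGroup.mk' (factorCentralizer N₀ N))) :=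
    hNp q hq _ _ h1
  obtain ⟨φ, hφ⟩ := exists_surj_of_ker_le
    ((QuotientGroup.mk' (factorCentralizer N₀ N)).subgroupMap H)
    (QuotientGroup.mk' (factorCentralizer B A))
    (MonoidHom.subgroupMap_surjective _ _) (QuotientGroup.mk'_surjective _) (by
      intro x hx
      rw [MonoidHom.mem_ker] at hx
      have hx' : QuotientGroup.mk' (factorCentralizer N₀ N) (x : G) = 1 := by
        have := congrArg Subtype.val hx
        simpa using this
      rw [QuotientGroup.mk'_apply, QuotientGroup.eq_one_iff, mem_factorCentralizer] at hx'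
      rw [QuotientGroup.ker_mk', mem_factorCentralizer]
      intro a ha
      have ha' : a ∈ B ⊔ (A ⊓ N.subgroupOf H) := by rw [hAeq]; exact ha
      obtain ⟨b, hb, c, hcc, rfl⟩ := Subgroup.mem_sup_of_normal_right.mp ha'
      obtain ⟨hc1, hc2⟩ := Subgroup.mem_inf.mp hcc
      have h3 : x * c * x⁻¹ * c⁻¹ ∈ B := by
        refine hA0 (Subgroup.mem_inf.mpr ⟨?_, ?_⟩)
        · exact A.mul_mem (hA.conj_mem c hc1 x) (A.inv_mem hc1)
        · rw [Subgroup.mem_subgroupOf]
          have := hx' (c : G) hc2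
          simpa using this
      have h4 : x * b * x⁻¹ ∈ B := hB.conj_mem b hb x
      have h5 : x * (b * c) * x⁻¹ * (b * c)⁻¹ =
          (x * b * x⁻¹) * (x * c * x⁻¹ * c⁻¹) * b⁻¹ := by group
      rw [h5]
      exact B.mul_mem (B.mul_mem h4 h3) (B.inv_mem hb))
  obtain ⟨_, Pb, hPn, hPp, hfP⟩ := Np.image (hf q hq) φ hφ h2
  have hP' : (Pb.comap (QuotientGroup.mk' (factorCentralizer B A))).Normal := hPn.comap _
  have hmap : (Pb.comap (QuotientGroup.mk' (factorCentralizer B A))).map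
      (QuotientGroup.mk' (factorCentralizer B A)) = Pb :=
    Subgroup.map_comap_eq_self_of_surjective (QuotientGroup.mk'_surjective _) Pb
  have hle := le_factorCentralizer B A (Pb.comap (QuotientGroup.mk' (factorCentralizer B A)))
    hc hq hdvd (by rw [hmap]; exact hPp)
  have hbot : Pb ≤ ⊥ := by
    rw [← hmap, Subgroup.map_le_iff_le_comap]
    refine hle.trans ?_
    intro x hx
    rw [Subgroup.mem_comap, Subgroup.mem_bot, QuotientGroup.mk'_apply, QuotientGroup.eq_one_iff]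
    exact hx
  refine (hf q hq).of_ker_le (QuotientGroup.mk' Pb) (MonoidHom.id _)
    (QuotientGroup.mk'_surjective _) Function.surjective_id ?_ hfP
  rw [QuotientGroup.ker_mk']
  refine hbot.trans bot_le

end Pool.Agent.Lib.MP_9bfc50_al
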