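import Pool.Agent.Lib.MP_9bfc50_al.PGroup

namespace Pool.Agent.Lib.MP_9bfc50_al

variable {F : GClass} {f : ℕ → GClass}

theorem iter_mem (hF : DefinedBy F f) (hf : ∀ p : ℕ, p.Prime → IsFormationOrEmpty (f p))
    {p : ℕ} (hp : p.Prime) {Y Mt : Type} [Group Y] [Finite Y] [Group Mt] (μ : Mt →* Y)
    (V : Subgroup Y) (hVp : IsPGroup p ↥V) (hVc : ∀ a ∈ V, ∀ b ∈ V, a * b = b * a)
    (hgen : ∀ y : Y, ∃ v ∈ V, ∃ m : Mt, y = v * μ m) (K : Subgroup Y) [hKn : K.Normal]
    (hK : F (Y ⧸ K)) (o : Mt) (ho : o ∈ residual (f p) Mt) :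
    ∀ N : Subgroup Y, N.Normal → N ≤ V →
      ∃ n : ℕ, ∀ x ∈ N, (fun x => μ o * x * (μ o)⁻¹ * x⁻¹)^[n] x ∈ K := by
  classical
  have : Fact p.Prime := ⟨hp⟩
  have key : ∀ n : ℕ, ∀ N : Subgroup Y, Nat.card N = n → N.Normal → N ≤ V →
      ∃ n : ℕ, ∀ x ∈ N, (fun x => μ o * x * (μ o)⁻¹ * x⁻¹)^[n] x ∈ K := by
    intro n
    induction n using Nat.strong_induction_on with
    | _ n ih =>
      intro N hcard hN hNV
      by_cases hNK : N ≤ K
      · exact ⟨0, fun x hx => hNK hx⟩
      · let T : Set (Subgroup Y) := {N' | N'.Normal ∧ N ⊓ K ≤ N' ∧ N' < N}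
        have hlt : N ⊓ K < N := by
          refine lt_of_le_of_ne inf_le_left ?_
          intro h
          exact hNK (inf_eq_left.mp h)
        obtain ⟨N', hN'⟩ := (Set.toFinite T).exists_maximal
          ⟨N ⊓ K, inferInstance, le_rfl, hlt⟩
        have hN'n : N'.Normal := hN'.1.1
        have hmod : (N' ⊔ K) ⊓ N ≤ N' := by
          refine (sup_inf_le hN'.1.2.2.le).trans (sup_le le_rfl ?_)
          rw [inf_comm]
          exact hN'.1.2.1
        have hNle : ¬ N ≤ N' ⊔ K := by
          intro h
          exact absurd hN'.1.2.2 (not_lt_of_ge ((le_inf h le_rfl).trans hmod))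
        have hc : IsChiefFactor (N' ⊔ K) (N ⊔ K) := by
          refine ⟨inferInstance, inferInstance, ?_, ?_⟩
          · refine lt_of_le_of_ne (sup_le_sup_right hN'.1.2.2.le K) ?_
            intro h
            exact hNle (h ▸ le_sup_left)
          · intro L hL h1 h2
            have hKL : K ≤ L := le_sup_right.trans h1
            have h4 : L ≤ (L ⊓ N) ⊔ K := by
              intro x hx
              obtain ⟨y, hy, z, hz, rfl⟩ := Subgroup.mem_sup_of_normal_right.mp (h2 hx)
              have hyL : y ∈ L := by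
                have := L.mul_mem hx (L.inv_mem (hKL hz))
                simpa using this
              exact Subgroup.mul_mem_sup (Subgroup.mem_inf.mpr ⟨hyL, hy⟩) hz
            rcases eq_or_lt_of_le (inf_le_right : L ⊓ N ≤ N) with h5 | h5
            · right
              refine le_antisymm h2 (sup_le (inf_eq_right.mp h5) hKL)
            · left
              have h6 : N' ≤ L ⊓ N := le_inf (le_sup_left.trans h1) hN'.1.2.2.le
              have h7 : L ⊓ N ≤ N' :=
                hN'.2 ⟨inferInstance, hN'.1.2.1.trans h6, h5⟩ h6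
              exact le_antisymm (h4.trans (sup_le_sup_right h7 K)) h1
        have hidx : (N' ⊔ K).relIndex (N ⊔ K) = (N' ⊔ K).relIndex N := by
          have h1 : N ⊔ K = N ⊔ (N' ⊔ K) := by
            rw [← sup_assoc, sup_eq_left.mpr hN'.1.2.2.le]
          rw [h1, Subgroup.relIndex_sup_right]
        have hdvd : p ∣ (N' ⊔ K).relIndex (N ⊔ K) := by
          rw [hidx]
          obtain ⟨k, hk⟩ := IsPGroup.iff_card.mp (hVp.to_le hNV)
          have h1 : (N' ⊔ K).relIndex N ∣ p ^ k := by
            rw [← hk]; exact Subgroup.relIndex_dvd_card _ _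
          obtain ⟨j, _, hj⟩ := (Nat.dvd_prime_pow hp).mp h1
          rw [hj]
          refine dvd_pow_self p ?_
          rintro rfl
          rw [pow_zero, Subgroup.relIndex_eq_one] at hj
          exact hNle hj
        have hC := factor_mem hF hf K hK (N' ⊔ K) (N ⊔ K) le_sup_right hc hp hdvd
        have hVC : V ≤ factorCentralizer (N' ⊔ K) (N ⊔ K) := by
          intro v hv
          rw [mem_factorCentralizer]
          intro h hh
          obtain ⟨x, hx, k, hk, rfl⟩ := Subgroup.mem_sup_of_normal_right.mp hh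
          have h1 : v * (x * k) * v⁻¹ * (x * k)⁻¹ = x * (v * k * v⁻¹ * k⁻¹) * x⁻¹ := by
            have h2 := hVc v hv x (hNV hx)
            calc v * (x * k) * v⁻¹ * (x * k)⁻¹ = (v * x) * k * v⁻¹ * k⁻¹ * x⁻¹ := by group
              _ = (x * v) * k * v⁻¹ * k⁻¹ * x⁻¹ := by rw [h2]
              _ = _ := by group
          rw [h1]
          refine Subgroup.mem_sup_right ?_
          exact hKn.conj_mem _ (K.mul_mem (hKn.conj_mem k hk v) (K.inv_mem hk)) x
        have hCM : ((factorCentralizer (N' ⊔ K) (N ⊔ K)).comap μ).Normal :=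
          (factorCentralizer_normal (N' ⊔ K) (N ⊔ K)).comap μ
        have hres : residual (f p) Mt ≤ (factorCentralizer (N' ⊔ K) (N ⊔ K)).comap μ := by
          refine residual_le_of_mem _ ?_
          refine (hf p hp).of_ker_le ((QuotientGroup.mk' (factorCentralizer (N' ⊔ K)
            (N ⊔ K))).comp μ) (QuotientGroup.mk' _) ?_ (QuotientGroup.mk'_surjective _) ?_ hC
          · intro z
            obtain ⟨y, rfl⟩ := QuotientGroup.mk'_surjective _ z
            obtain ⟨v, hv, m, rfl⟩ := hgen y
            refine ⟨m, ?_⟩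
            rw [map_mul]
            have : QuotientGroup.mk' (factorCentralizer (N' ⊔ K) (N ⊔ K)) v = 1 :=
              (QuotientGroup.eq_one_iff v).mpr (hVC hv)
            rw [this, one_mul]
            rfl
          · intro x hx
            rw [MonoidHom.mem_ker, MonoidHom.comp_apply, QuotientGroup.mk'_apply,
              QuotientGroup.eq_one_iff] at hx
            rw [QuotientGroup.ker_mk']
            exact hx
        have hoC : μ o ∈ factorCentralizer (N' ⊔ K) (N ⊔ K) := hres ho
        rw [mem_factorCentralizer] at hoC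
        obtain ⟨n', hn'⟩ := ih (Nat.card N') (by rw [← hcard]; exact card_lt_of_lt hN'.1.2.2)
          N' rfl hN'n (hN'.1.2.2.le.trans hNV)
        refine ⟨n' + 1, ?_⟩
        intro x hx
        rw [Function.iterate_succ_apply]
        refine hn' _ (hmod (Subgroup.mem_inf.mpr ⟨hoC x (Subgroup.mem_sup_left hx), ?_⟩))
        exact N.mul_mem (hN.conj_mem x hx _) (N.inv_mem hx)
  intro N hN hNV
  exact key _ N rfl hN hNV

end Pool.Agent.Lib.MP_9bfc50_al
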