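import Pool.Agent.Lib.MP_9bfc50_al.Wreath

namespace Pool.Agent.Lib.MP_9bfc50_al

variable {F : GClass} {f : ℕ → GClass}

section

variable {p : ℕ} {G : Type} [Group G]

theorem wr_finite [Fact p.Prime] [Finite G] : Finite (Wr p G) := by
  have : Finite (Multiplicative (G → ZMod p)) := inferInstanceAs (Finite (G → ZMod p))
  exact Finite.of_equiv _ SemidirectProduct.equivProd.symm

theorem iterate_comm (o : G) (n : ℕ) (b : G → ZMod p) :
    (fun x : Wr p G => ka o * x * (ka o)⁻¹ * x⁻¹)^[n] (io b) = io ((Dd o ^ n) b) := by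
  induction n generalizing b with
  | zero => rfl
  | succ n ih =>
    rw [Function.iterate_succ_apply, comm_io, ih, pow_succ, Module.End.mul_apply]

/-- The residual of `Y` absorbs `D o (Y ∩ V)`. -/
theorem residual_absorbs [Fact p.Prime] [Finite G] (hF : DefinedBy F f)
    (hf : ∀ p : ℕ, p.Prime → IsFormationOrEmpty (f p)) (hFf : IsFormation F)
    (M : Subgroup G) (o : ↥M) (ho : o ∈ residual (f p) ↥M) (hco : (orderOf (o : G)).Coprime p)
    (Y : Subgroup (Wr p G)) (hMY : ∀ m ∈ M, ka m ∈ Y) (hY : ∀ y ∈ Y, y.right ∈ M)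
    (b : G → ZMod p) (hb : io b ∈ Y) :
    io (Dd (o : G) b) ∈ (residual F ↥Y).map Y.subtype := by
  have hp : p.Prime := Fact.out
  have hfin : Finite (Wr p G) := wr_finite
  obtain ⟨hKn, hK⟩ := residual_spec hFf.toIsFormationOrEmpty ↥Y (exists_quot_mem hFf ↥Y)
  set K := residual F ↥Y with hKdef
  let μ : ↥M →* ↥Y :=
    { toFun := fun m => ⟨ka (m : G), hMY m m.2⟩
      map_one' := by
        apply Subtype.ext
        change (ka ((1 : ↥M) : G) : Wr p G) = 1
        unfold ka
        simp
      map_mul' := by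
        intro a b
        apply Subtype.ext
        change (ka ((a * b : ↥M) : G) : Wr p G) = ka (a : G) * ka (b : G)
        rw [← ka_mul]
        rfl }
  let V : Subgroup ↥Y := (SemidirectProduct.rightHom.comp Y.subtype).ker
  have hV : ∀ y : ↥Y, y ∈ V ↔ (y : Wr p G).right = 1 := by
    intro y
    exact MonoidHom.mem_ker
  have hVp : IsPGroup p ↥V := by
    intro x
    refine ⟨1, ?_⟩
    apply Subtype.ext
    apply Subtype.ext
    have h1 := (hV x.1).mp x.2
    have h2 := eq_io_of_right _ h1
    have h3 : ((x ^ p ^ 1 : ↥V) : Wr p G) = ((x : ↥Y) : Wr p G) ^ p := by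
      simp
    change ((x ^ p ^ 1 : ↥V) : Wr p G) = 1
    rw [h3, h2]
    unfold io
    rw [← map_pow, ← ofAdd_nsmul]
    have h4 : p • Multiplicative.toAdd ((x : ↥Y) : Wr p G).left = 0 := by
      funext g
      simp
    rw [h4, ofAdd_zero, map_one]
  have hVc : ∀ a ∈ V, ∀ b ∈ V, a * b = b * a := by
    intro a ha b hb
    apply Subtype.ext
    have h1 := eq_io_of_right _ ((hV a).mp ha)
    have h2 := eq_io_of_right _ ((hV b).mp hb)
    change (a : Wr p G) * (b : Wr p G) = (b : Wr p G) * (a : Wr p G)
    rw [h1, h2, ← io_add, ← io_add, add_comm]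
  have hgen : ∀ y : ↥Y, ∃ v ∈ V, ∃ m : ↥M, y = v * μ m := by
    intro y
    refine ⟨y * (μ ⟨_, hY y y.2⟩)⁻¹, ?_, ⟨_, hY y y.2⟩, by simp⟩
    rw [hV]
    change ((y : Wr p G) * (ka (y : Wr p G).right)⁻¹).right = 1
    unfold ka
    simp
  have hVn : V.Normal := inferInstance
  obtain ⟨n, hn⟩ := iter_mem hF hf hp μ V hVp hVc hgen K hK o ho V hVn le_rfl
  -- the set of base elements whose image lies in `K`
  have hinv : ∀ c : G → ZMod p, io c ∈ K.map Y.subtype → io (Dd (o : G) c) ∈ K.map Y.subtype := by
    rintro c ⟨z, hz, hzc⟩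
    refine ⟨μ o * z * (μ o)⁻¹ * z⁻¹, K.mul_mem (hKn.conj_mem z hz _) (K.inv_mem hz), ?_⟩
    rw [← comm_io, ← hzc]
    rfl
  have hinv' : ∀ (k : ℕ) (c : G → ZMod p), io c ∈ K.map Y.subtype →
      io ((Dd (o : G) ^ k) c) ∈ K.map Y.subtype := by
    intro k
    induction k with
    | zero => intro c hc; exact hc
    | succ k ih =>
      intro c hc
      rw [pow_succ', Module.End.mul_apply]
      exact hinv _ (ih c hc)
  have hn' : io ((Dd (o : G) ^ n) b) ∈ K.map Y.subtype := by
    have h1 := hn ⟨io b, hb⟩ ((hV _).mpr rfl)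
    refine ⟨_, h1, ?_⟩
    rw [← iterate_comm]
    have h2 : ∀ (k : ℕ) (z : ↥Y), (((fun x : ↥Y => μ o * x * (μ o)⁻¹ * x⁻¹)^[k] z : ↥Y) : Wr p G) =
        (fun x : Wr p G => ka (o : G) * x * (ka (o : G))⁻¹ * x⁻¹)^[k] (z : Wr p G) := by
      intro k
      induction k with
      | zero => intro z; rfl
      | succ k ih =>
        intro z
        rw [Function.iterate_succ_apply, Function.iterate_succ_apply, ih]
        rfl
    exact h2 n ⟨io b, hb⟩
  obtain ⟨N, hN, hN'⟩ := exists_iter (p := p) (o : G) hco n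
  have h3 : (Dd (o : G) : Module.End (ZMod p) (G → ZMod p)) b =
      (Dd (o : G) ^ (N - n)) ((Dd (o : G) ^ n) b) := by
    rw [← Module.End.mul_apply, ← pow_add, Nat.sub_add_cancel hN, hN']
  rw [h3]
  exact hinv' _ _ hn'

/-- The module generated by the base part of a subgroup. -/
def Um (X : Subgroup (Wr p G)) : AddSubgroup (G → ZMod p) :=
  AddSubgroup.closure {c | ∃ (g : G) (b : G → ZMod p), io b ∈ X ∧ c = Lr p G g b}

theorem Um_mono {X Y : Subgroup (Wr p G)} (h : X ≤ Y) : Um X ≤ Um Y := by
  apply AddSubgroup.closure_mono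
  rintro c ⟨g, b, hb, rfl⟩
  exact ⟨g, b, h hb, rfl⟩

theorem Um_inv (X : Subgroup (Wr p G)) (h : G) (u : G → ZMod p) (hu : u ∈ Um X) :
    Lr p G h u ∈ Um X := by
  unfold Um at hu ⊢
  induction hu using AddSubgroup.closure_induction with
  | mem x hx =>
    obtain ⟨g, b, hb, rfl⟩ := hx
    apply AddSubgroup.subset_closure
    exact ⟨h * g, b, hb, by rw [map_mul]; rfl⟩
  | zero => rw [map_zero]; exact AddSubgroup.zero_mem _
  | add x y _ _ hx hy => rw [map_add]; exact AddSubgroup.add_mem _ hx hy
  | neg x _ hx => rw [map_neg]; exact AddSubgroup.neg_mem _ hx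

theorem Um_D (X : Subgroup (Wr p G)) (o : G) (k : ℕ) (u : G → ZMod p) (hu : u ∈ Um X) :
    (Dd o ^ k) u ∈ Um X := by
  induction k with
  | zero => exact hu
  | succ k ih =>
    rw [pow_succ', Module.End.mul_apply, Dd_apply]
    exact AddSubgroup.sub_mem _ (Um_inv X o _ ih) ih

/-- The key chain argument. -/
theorem chain_key [Fact p.Prime] [Finite G] (hF : DefinedBy F f)
    (hf : ∀ p : ℕ, p.Prime → IsFormationOrEmpty (f p)) (hFf : IsFormation F)
    (M : Subgroup G) (hM : IsCoatom M) (o : ↥M) (ho : o ∈ residual (f p) ↥M)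
    (hco : (orderOf (o : G)).Coprime p)
    (X : Subgroup (Wr p G)) (hX : IsFSubnormal F X) :
    (∀ m ∈ M, ka m ∈ X) → (∀ x ∈ X, x.right ∈ M) →
      ∀ u ∈ Um X, io (Dd (o : G) u) ∈ X := by
  induction hX using Relation.ReflTransGen.head_induction_on with
  | refl =>
    intro _ h2
    exfalso
    apply hM.1
    rw [eq_top_iff]
    intro g _
    exact h2 (ka g) (Subgroup.mem_top _)
  | head hstep hrest ih =>
    rename_i X Y
    intro h1 h2
    have hXY : X ≤ Y := hstep.1.1.le
    by_cases hY : ∀ y ∈ Y, y.right ∈ M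
    · have hSY := ih (fun m hm => hXY (h1 m hm)) hY
      have hres := residual_absorbs hF hf hFf M o ho hco Y (fun m hm => hXY (h1 m hm)) hY
      have h3 : ∀ u ∈ Um X, io ((Dd (o : G) ^ 2) u) ∈ X := by
        intro u hu
        have h4 := hSY u (Um_mono hXY hu)
        have h5 := hstep.2 (hres _ h4)
        rw [pow_two, Module.End.mul_apply]
        exact h5
      intro u hu
      obtain ⟨N, hN, hN'⟩ := exists_iter (p := p) (o : G) hco 2
      have h6 : (Dd (o : G) : Module.End (ZMod p) (G → ZMod p)) u =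
          (Dd (o : G) ^ 2) ((Dd (o : G) ^ (N - 2)) u) := by
        rw [← Module.End.mul_apply, ← pow_add, Nat.add_sub_cancel' hN, hN']
      rw [h6]
      exact h3 _ (Um_D X _ _ u hu)
    · push Not at hY
      obtain ⟨y₀, hy₀, hy₀M⟩ := hY
      -- `Y` covers `G`
      have hcov : ∀ g : G, ∃ y ∈ Y, y.right = g := by
        have h3 : M < Y.map SemidirectProduct.rightHom := by
          refine lt_of_le_of_ne ?_ ?_
          · intro m hm
            exact ⟨ka m, hXY (h1 m hm), rfl⟩
          · intro h
            apply hy₀M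
            rw [h]
            exact ⟨y₀, hy₀, rfl⟩
        have h4 := hM.2 _ h3
        intro g
        have h5 : g ∈ Y.map SemidirectProduct.rightHom := by rw [h4]; trivial
        obtain ⟨y, hy, rfl⟩ := h5
        exact ⟨y, hy, rfl⟩
      -- the base part of `Y` is invariant
      have hYinv : ∀ (g : G) (b : G → ZMod p), io b ∈ Y → io (Lr p G g b) ∈ Y := by
        intro g b hb
        obtain ⟨y, hy, rfl⟩ := hcov g
        have h3 := Y.mul_mem (Y.mul_mem hy hb) (Y.inv_mem hy)
        have h4 : y * io b * y⁻¹ = io (Lr p G y.right b) := by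
          conv_lhs => rw [eq_io_mul_ka y]
          have h5 : io (Multiplicative.toAdd y.left) * ka y.right * io b *
              (io (Multiplicative.toAdd y.left) * ka y.right)⁻¹ =
              io (Multiplicative.toAdd y.left) * (ka y.right * io b * (ka y.right)⁻¹) *
              (io (Multiplicative.toAdd y.left))⁻¹ := by group
          rw [h5, ka_conj, ← io_neg, ← io_add, ← io_add]
          congr 1
          abel
        rwa [h4] at h3
      -- the base part of `Y` lies in `X`
      have hYX : ∀ b : G → ZMod p, io b ∈ Y → io b ∈ X := by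
        let VY : Subgroup (Wr p G) := Y ⊓ (SemidirectProduct.rightHom (φ := act p G)).ker
        have h3 : X ⊔ VY ≤ Y := sup_le hXY inf_le_left
        have h4 : X ⊔ VY ≠ Y := by
          intro h
          apply hy₀M
          have h5 : ∀ z ∈ X ⊔ VY, z.right ∈ M := by
            intro z hz
            have h6 : X ⊔ VY ≤ M.comap SemidirectProduct.rightHom := by
              refine sup_le (fun x hx => h2 x hx) ?_
              intro v hv
              have h7 : v.right = 1 := (Subgroup.mem_inf.mp hv).2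
              change v.right ∈ M
              rw [h7]
              exact M.one_mem
            exact h6 hz
          exact h5 y₀ (h ▸ hy₀)
        have h5 : X ⊔ VY = X := by
          by_contra h6
          have h7 : X < X ⊔ VY := lt_of_le_of_ne le_sup_left (Ne.symm h6)
          exact hstep.1.2 h7 (lt_of_le_of_ne h3 h4)
        intro b hb
        have h6 : io b ∈ VY := Subgroup.mem_inf.mpr ⟨hb, rfl⟩
        exact h5 ▸ (Subgroup.mem_sup_right h6 : io b ∈ X ⊔ VY)
      have hU : ∀ u ∈ Um X, io u ∈ Y := by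
        intro u hu
        unfold Um at hu
        induction hu using AddSubgroup.closure_induction with
        | mem x hx =>
          obtain ⟨g, b, hb, rfl⟩ := hx
          exact hYinv g b (hXY hb)
        | zero => rw [io_zero]; exact Y.one_mem
        | add x y _ _ hx hy => rw [io_add]; exact Y.mul_mem hx hy
        | neg x _ hx => rw [io_neg]; exact Y.inv_mem hx
      intro u hu
      apply hYX
      rw [Dd_apply, sub_eq_add_neg, io_add, io_neg]
      exact Y.mul_mem (hYinv _ _ (hU u hu)) (Y.inv_mem (hU u hu))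

end

end Pool.Agent.Lib.MP_9bfc50_al
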