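import Pool.Agent.Lib.MP_9bfc50_al.Key
import Pool.Agent.Lib.MP_9bfc50_al.Descent

namespace Pool.Agent.Lib.MP_9bfc50_al

variable {F : GClass} {f : ℕ → GClass}

/-- A finite group that is not a `p`-group has a nontrivial element of order prime to `p`. -/
theorem exists_coprime_of_not_pGroup {p : ℕ} (hp : p.Prime) {G : Type} [Group G] [Finite G]
    (R : Subgroup G) (hR : ¬ IsPGroup p ↥R) : ∃ o ∈ R, o ≠ 1 ∧ (orderOf o).Coprime p := by
  unfold IsPGroup at hR
  push Not at hR
  obtain ⟨g, hg⟩ := hR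
  have hpos : orderOf (g : G) ≠ 0 := (orderOf_pos (g : G)).ne'
  obtain ⟨a, m, hm, hgm⟩ := Nat.exists_eq_pow_mul_and_not_dvd hpos p hp.ne_one
  refine ⟨(g : G) ^ p ^ a, R.pow_mem g.2 _, ?_, ?_⟩
  · intro h
    apply hg a
    apply Subtype.ext
    simpa using h
  · have h1 : orderOf ((g : G) ^ p ^ a) = m := by
      rw [orderOf_pow_of_dvd (pow_ne_zero _ hp.ne_zero) (by rw [hgm]; exact dvd_mul_right _ _),
        hgm, Nat.mul_div_cancel_left _ (pow_pos hp.pos a)]
    rw [h1]
    exact ((Nat.Prime.coprime_iff_not_dvd hp).mpr hm).symm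

/-- Maximal subgroups of groups in `N_p f(p)` stay in `N_p f(p)`. -/
theorem Np_maximal (hF : DefinedBy F f) (hf : ∀ p : ℕ, p.Prime → IsFormationOrEmpty (f p))
    (hint : ∀ (p : ℕ) (G : Type) [Group G], p.Prime → f p G → F G) (hFf : IsFormation F)
    (hJ : JoinClosed F) {p : ℕ} (hp : p.Prime) {G : Type} [Group G] (hG : Np (f p) p G)
    (M : Subgroup G) (hM : IsCoatom M) : Np (f p) p ↥M := by
  classical
  by_contra hcon
  have : Fact p.Prime := ⟨hp⟩
  have hfinG : Finite G := hG.1
  have hne : ∃ (N : Subgroup ↥M) (_ : N.Normal), f p (↥M ⧸ N) := by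
    obtain ⟨_, P, hPn, _, hfP⟩ := hG
    have : Subsingleton (↥M ⧸ (⊤ : Subgroup ↥M)) := QuotientGroup.subsingleton_quotient_top
    exact ⟨⊤, inferInstance, (hf p hp).trivial_of_mem hfP⟩
  obtain ⟨hRn, hfR⟩ := residual_spec (hf p hp) ↥M hne
  have hRp : ¬ IsPGroup p ↥(residual (f p) ↥M) := by
    intro h
    exact hcon ⟨inferInstance, _, hRn, h, hfR⟩
  obtain ⟨o, ho, ho1, hco⟩ := exists_coprime_of_not_pGroup hp _ hRp
  have hco' : (orderOf (o : G)).Coprime p := by
    rw [Subgroup.orderOf_coe]; exact hco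
  have ho1' : (o : G) ≠ 1 := by
    intro h; exact ho1 (Subtype.ext h)
  have hfinW : Finite (Wr p G) := wr_finite
  have hsub : ∀ X : Subgroup (Wr p G), (∀ g : G, ka g ∈ X) → F ↥X := by
    intro X hX
    refine mem_of_Np hF hf hint hp ?_
    refine Np.of_ker (hf p hp) (SemidirectProduct.rightHom.comp X.subtype) ?_ ?_ hG
    · intro g
      exact ⟨⟨ka g, hX g⟩, rfl⟩
    · intro x
      refine ⟨1, ?_⟩
      apply Subtype.ext
      apply Subtype.ext
      have h1 : ((x : ↥X) : Wr p G).right = 1 := x.2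
      have h2 := eq_io_of_right _ h1
      have h3 : ((x ^ p ^ 1 : ↥(SemidirectProduct.rightHom.comp X.subtype).ker) : Wr p G) =
          ((x : ↥X) : Wr p G) ^ p := by
        simp
      change ((x ^ p ^ 1 : ↥(SemidirectProduct.rightHom.comp X.subtype).ker) : Wr p G) = 1
      rw [h3, h2]
      unfold io
      rw [← map_pow, ← ofAdd_nsmul]
      have h4 : p • Multiplicative.toAdd ((x : ↥X) : Wr p G).left = 0 := by
        funext g
        simp
      rw [h4, ofAdd_zero, map_one]
  let GW : Subgroup (Wr p G) := (SemidirectProduct.inr (φ := act p G)).range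
  let MW : Subgroup (Wr p G) := M.map (SemidirectProduct.inr (φ := act p G))
  have hGWchain : Relation.ReflTransGen (MaxStep F) GW ⊤ := by
    refine chain_of_mem hFf.toIsFormationOrEmpty le_top ?_
    intro X hX _
    exact hsub X (fun g => hX ⟨g, rfl⟩)
  have hstep : MaxStep F MW GW := by
    refine ⟨⟨?_, ?_⟩, ?_⟩
    · refine lt_of_le_of_ne ?_ ?_
      · rintro _ ⟨m, _, rfl⟩
        exact ⟨m, rfl⟩
      · intro h
        apply hM.1
        rw [eq_top_iff]
        intro g _
        have h1 : SemidirectProduct.inr (φ := act p G) g ∈ MW := by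
          rw [h]; exact ⟨g, rfl⟩
        obtain ⟨m, hm, hmg⟩ := h1
        rw [← SemidirectProduct.inr_injective hmg]
        exact hm
    · intro Z hMZ hZG
      have h1 : M < Z.comap (SemidirectProduct.inr (φ := act p G)) := by
        refine lt_of_le_of_ne ?_ ?_
        · intro m hm
          exact hMZ.le ⟨m, hm, rfl⟩
        · intro h
          apply hMZ.ne
          refine le_antisymm hMZ.le ?_
          intro z hz
          obtain ⟨g, rfl⟩ := hZG.le hz
          refine ⟨g, ?_, rfl⟩
          rw [h]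
          exact hz
      have h2 := hM.2 _ h1
      apply hZG.ne
      refine le_antisymm hZG.le ?_
      rintro _ ⟨g, rfl⟩
      have h3 : g ∈ Z.comap (SemidirectProduct.inr (φ := act p G)) := by rw [h2]; trivial
      exact h3
    · have h1 : F ↥GW := hsub GW (fun g => ⟨g, rfl⟩)
      rw [residual_eq_bot hFf.toIsFormationOrEmpty h1]
      simp
  have hMW : IsFSubnormal F MW := Relation.ReflTransGen.head hstep hGWchain
  let v : Wr p G := io (Pi.single 1 1)
  have hMWv := hMW.map hFf.toIsFormationOrEmpty (MulAut.conj v)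
  have hJsub := hJ (Wr p G) _ _ hMW hMWv
  set J : Subgroup (Wr p G) := MW ⊔ MW.map (MulAut.conj v).toMonoidHom with hJdef
  -- support
  let S : Subgroup (Wr p G) :=
    { carrier := {w | w.right ∈ M ∧ ∀ x : G, x ∉ M → Multiplicative.toAdd w.left x = 0}
      one_mem' := ⟨M.one_mem, fun x _ => rfl⟩
      mul_mem' := by
        rintro a b ⟨ha1, ha2⟩ ⟨hb1, hb2⟩
        refine ⟨M.mul_mem ha1 hb1, ?_⟩
        intro x hx
        have h1 : Multiplicative.toAdd (a * b).left x =
          Multiplicative.toAdd a.left x + Multiplicative.toAdd b.left (a.right⁻¹ * x) := rfl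
        rw [h1, ha2 x hx, hb2 _ (fun h => hx (by
          have := M.mul_mem ha1 h
          simpa using this)), add_zero]
      inv_mem' := by
        rintro a ⟨ha1, ha2⟩
        refine ⟨M.inv_mem ha1, ?_⟩
        intro x hx
        have h1 : Multiplicative.toAdd (a⁻¹).left x =
          - Multiplicative.toAdd a.left (a.right⁻¹⁻¹ * x) := rfl
        rw [h1, ha2 _ (fun h => hx (by
          have := M.mul_mem (M.inv_mem ha1) h
          simpa using this)), neg_zero] }
  have hvS : v ∈ S := by
    refine ⟨M.one_mem, ?_⟩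
    intro x hx
    have h1 : Multiplicative.toAdd v.left x = (Pi.single 1 1 : G → ZMod p) x := rfl
    rw [h1, Pi.single_eq_of_ne]
    rintro rfl
    exact hx M.one_mem
  have hMS : MW ≤ S := by
    rintro _ ⟨m, hm, rfl⟩
    exact ⟨hm, fun x _ => rfl⟩
  have hJS : J ≤ S := by
    refine sup_le hMS ?_
    rintro _ ⟨w, hw, rfl⟩
    exact S.mul_mem (S.mul_mem hvS (hMS hw)) (S.inv_mem hvS)
  have hkaJ : ∀ m ∈ M, ka m ∈ J := fun m hm => Subgroup.mem_sup_left ⟨m, hm, rfl⟩
  have hJR : ∀ x ∈ J, x.right ∈ M := fun x hx => (hJS hx).1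
  have hkey := chain_key hF hf hFf M hM o ho hco' J hJsub hkaJ hJR
  -- the elements `δ_1 - δ_m`
  have hb : ∀ m ∈ M, io (Pi.single 1 1 - Pi.single m 1 : G → ZMod p) ∈ J := by
    intro m hm
    have h1 : v * ka m * v⁻¹ ∈ J := Subgroup.mem_sup_right ⟨ka m, ⟨m, hm, rfl⟩, rfl⟩
    have h2 := J.mul_mem h1 (J.inv_mem (hkaJ m hm))
    have h3 : v * ka m * v⁻¹ * (ka m)⁻¹ =
        io (Pi.single 1 1 - Pi.single m 1 : G → ZMod p) := by
      have h4 : v * ka m * v⁻¹ * (ka m)⁻¹ = v * (ka m * v⁻¹ * (ka m)⁻¹) := by group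
      have h5 : v⁻¹ = io (-(Pi.single 1 1 : G → ZMod p)) := (io_neg _).symm
      rw [h4, h5, ka_conj]
      change io _ * io _ = _
      rw [← io_add]
      congr 1
      funext x
      rw [Pi.add_apply, Pi.sub_apply, Lr_apply, Pi.neg_apply, sub_eq_add_neg]
      congr 2
      by_cases hx : x = m
      · subst hx; simp
      · rw [Pi.single_eq_of_ne hx, Pi.single_eq_of_ne]
        intro h
        exact hx (inv_mul_eq_one.mp h).symm
    rwa [h3] at h2
  -- an element outside `M`
  obtain ⟨g, hg⟩ : ∃ g : G, g ∉ M := by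
    by_contra h
    push Not at h
    exact hM.1 (eq_top_iff.mpr fun g _ => h g)
  have hval : ∀ m ∈ M, m ≠ 1 →
      (if m = g⁻¹ * (o : G)⁻¹ * g then (-1 : ZMod p) else 0) - 1 = 0 := by
    intro m hm hm1
    have h1 : Lr p G g (Pi.single 1 1 - Pi.single m 1) ∈ Um J :=
      AddSubgroup.subset_closure ⟨g, _, hb m hm, rfl⟩
    have h2 := (hJS (hkey _ h1)).2 g hg
    have h3 : Multiplicative.toAdd (io (Dd (o : G) (Lr p G g
        (Pi.single 1 1 - Pi.single m 1))) : Wr p G).left g =
        (Pi.single 1 1 - Pi.single m 1 : G → ZMod p) (g⁻¹ * ((o : G)⁻¹ * g)) -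
        (Pi.single 1 1 - Pi.single m 1 : G → ZMod p) (g⁻¹ * g) := rfl
    rw [h3, Pi.sub_apply, Pi.sub_apply, inv_mul_cancel, Pi.single_eq_same,
      Pi.single_eq_of_ne (Ne.symm hm1), sub_zero] at h2
    have h4 : (Pi.single 1 1 : G → ZMod p) (g⁻¹ * ((o : G)⁻¹ * g)) = 0 := by
      apply Pi.single_eq_of_ne
      intro h
      apply ho1'
      have h5 : (o : G)⁻¹ * g = g := by
        have := congrArg (fun z => g * z) h
        simpa using this
      have h6 : (o : G)⁻¹ = 1 := by
        have := congrArg (fun z => z * g⁻¹) h5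
        simpa using this
      exact inv_eq_one.mp h6
    rw [h4, zero_sub] at h2
    have h8 : (if m = g⁻¹ * (o : G)⁻¹ * g then (-1 : ZMod p) else 0) =
        -(Pi.single m 1 : G → ZMod p) (g⁻¹ * ((o : G)⁻¹ * g)) := by
      by_cases h : m = g⁻¹ * (o : G)⁻¹ * g
      · rw [if_pos h, h, mul_assoc, Pi.single_eq_same]
      · rw [if_neg h, Pi.single_eq_of_ne, neg_zero]
        intro h7
        apply h
        rw [← h7, mul_assoc]
    rw [h8]
    exact h2
  have hone : (1 : ZMod p) ≠ 0 := one_ne_zero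
  by_cases h1 : (o : G) = g⁻¹ * (o : G)⁻¹ * g
  · by_cases h2 : (o : G)⁻¹ = g⁻¹ * (o : G)⁻¹ * g
    · -- `o` is an involution, so `p` is odd
      have h3 : (o : G) * o = 1 := by
        have h4 : (o : G) = (o : G)⁻¹ := h1.trans h2.symm
        calc (o : G) * o = o * (o : G)⁻¹ := by conv_rhs => rw [← h4]
          _ = 1 := mul_inv_cancel _
      have h5 := hval (o : G) o.2 ho1'
      rw [if_pos h1] at h5
      have h6 : orderOf (o : G) = 2 := by
        apply orderOf_eq_prime
        · rw [pow_two]; exact h3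
        · exact ho1'
      have h7 : (2 : ZMod p) = 0 := by
        have : (2 : ZMod p) = -(-1 - 1) := by ring
        rw [this, h5, neg_zero]
      have h8 : p ∣ 2 := by
        rw [← ZMod.natCast_eq_zero_iff]
        exact_mod_cast h7
      have h9 : p = 2 := (Nat.prime_dvd_prime_iff_eq hp Nat.prime_two).mp h8
      rw [h6, h9] at hco'
      norm_num at hco'
    · have h5 := hval (o : G)⁻¹ (M.inv_mem o.2) (inv_ne_one.mpr ho1')
      rw [if_neg h2, zero_sub, neg_eq_zero] at h5
      exact hone h5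
  · have h5 := hval (o : G) o.2 ho1'
    rw [if_neg h1, zero_sub, neg_eq_zero] at h5
    exact hone h5

/-- The class `N_p f(p)` is closed under subgroups. -/
theorem Np_subgroupClosed (hF : DefinedBy F f) (hf : ∀ p : ℕ, p.Prime → IsFormationOrEmpty (f p))
    (hint : ∀ (p : ℕ) (G : Type) [Group G], p.Prime → f p G → F G) (hFf : IsFormation F)
    (hJ : JoinClosed F) {p : ℕ} (hp : p.Prime) : SubgroupClosed (Np (f p) p) := by
  have key : ∀ n : ℕ, ∀ (G : Type) [Group G] (H : Subgroup G), Nat.card G = n →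
      Np (f p) p G → Np (f p) p ↥H := by
    intro n
    induction n using Nat.strong_induction_on with
    | _ n ih =>
      intro G _ H hcard hG
      have hfin : Finite G := hG.1
      rcases eq_or_ne H ⊤ with rfl | hH
      · exact hG.image (hf p hp) ((Subgroup.topEquiv (G := G)).symm.toMonoidHom)
          (Subgroup.topEquiv (G := G)).symm.surjective
      · obtain ⟨M, hM, hHM⟩ := (eq_top_or_exists_le_coatom H).resolve_left hH
        have hMmem := Np_maximal hF hf hint hFf hJ hp hG M hM
        have hlt : Nat.card M < n := by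
          rw [← hcard, ← Nat.card_congr (Subgroup.topEquiv (G := G)).toEquiv]
          exact card_lt_of_lt (lt_top_iff_ne_top.mpr hM.1)
        have h1 := ih _ hlt ↥M (H.subgroupOf M) rfl hMmem
        exact h1.image (hf p hp) (Subgroup.subgroupOfEquivOfLe hHM).toMonoidHom
          (Subgroup.subgroupOfEquivOfLe hHM).surjective
  intro G _ H hG
  exact key _ G H rfl hG

/-- Intersecting a local definition with the formation gives a local definition. -/
theorem DefinedBy.integrated (hFf : IsFormation F) (hF : DefinedBy F f) :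
    DefinedBy F (fun p G _ => f p G ∧ F G) := by
  intro G _
  constructor
  · intro h
    refine ⟨((hF G).mp h).1, ?_⟩
    intro K H _ _ hc p hp hdvd
    exact ⟨((hF G).mp h).2 K H hc p hp hdvd,
      hFf.image G _ (QuotientGroup.mk' _) (QuotientGroup.mk'_surjective _) h⟩
  · rintro ⟨h1, h2⟩
    refine (hF G).mpr ⟨h1, ?_⟩
    intro K H _ _ hc p hp hdvd
    exact (h2 K H hc p hp hdvd).1

theorem integrated_isFormationOrEmpty (hFf : IsFormation F)
    (hf : ∀ p : ℕ, p.Prime → IsFormationOrEmpty (f p)) :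
    ∀ p : ℕ, p.Prime → IsFormationOrEmpty (fun G _ => f p G ∧ F G) := by
  intro p hp
  refine ⟨?_, ?_, ?_⟩
  · intro G _ h
    exact hFf.finite G h.2
  · intro G H _ _ φ hφ h
    exact ⟨(hf p hp).image G H φ hφ h.1, hFf.image G H φ hφ h.2⟩
  · intro G A B _ _ _ φ ψ hφ hψ hk hA hB
    exact ⟨(hf p hp).subdirect G A B φ ψ hφ hψ hk hA.1 hB.1,
      hFf.subdirect G A B φ ψ hφ hψ hk hA.2 hB.2⟩

/-- A local formation whose subnormal subgroups are closed under joins is subgroup-closed. -/
theorem subgroupClosed_of_joinClosed (hF : IsLocalFormation F) (hJ : JoinClosed F) :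
    SubgroupClosed F := by
  obtain ⟨hFf, f, hf, hdef⟩ := hF
  have hdef' := hdef.integrated hFf
  have hf' := integrated_isFormationOrEmpty hFf hf
  refine subgroupClosed_of_Np hdef' hf' ?_
  intro q hq
  exact Np_subgroupClosed (f := fun p G _ => f p G ∧ F G) hdef' hf' (fun p G _ _ h => h.2) hFf hJ hq

end Pool.Agent.Lib.MP_9bfc50_al
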