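import Pool.Agent.Lib.MP_9bfc50_al.Chief

namespace Pool.Agent.Lib.MP_9bfc50_al

variable {F : GClass} {f : ℕ → GClass}

theorem factorCentralizer_symm {G : Type} [Group G] {K H P : Subgroup G} [K.Normal]
    (h : H ≤ factorCentralizer K P) : P ≤ factorCentralizer K H := by
  intro x hx
  rw [mem_factorCentralizer]
  intro y hy
  have h1 := (mem_factorCentralizer.mp (h hy)) x hx
  have h2 := K.inv_mem h1
  have h3 : (y * x * y⁻¹ * x⁻¹)⁻¹ = x * y * x⁻¹ * y⁻¹ := by group
  rwa [h3] at h2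

/-- A normal subgroup acting on a chief factor `H/K` as a `q`-group, `q` dividing `|H/K|`,
centralises it. -/
theorem le_factorCentralizer {G : Type} [Group G] [Finite G] (K H P : Subgroup G)
    [hK : K.Normal] [hH : H.Normal] [hP : P.Normal] (hc : IsChiefFactor K H) {q : ℕ}
    (hq : q.Prime) (hdvd : q ∣ K.relIndex H)
    (hPq : IsPGroup q ↥(P.map (QuotientGroup.mk' (factorCentralizer K H)))) :
    P ≤ factorCentralizer K H := by
  have : Fact q.Prime := ⟨hq⟩
  have hHn : (H.map (QuotientGroup.mk' K)).Normal := hH.map _ (QuotientGroup.mk'_surjective K)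
  set Hb := H.map (QuotientGroup.mk' K) with hHb
  let ρ : G →* MulAut ↥Hb := (MulAut.conjNormal (H := Hb)).comp (QuotientGroup.mk' K)
  have hρ : ∀ x ∈ factorCentralizer K H, ρ x = 1 := by
    intro x hx
    ext y
    obtain ⟨h, hh, hhy⟩ := y.2
    have h1 := (mem_factorCentralizer.mp hx) h hh
    rw [← QuotientGroup.eq_one_iff] at h1
    have h2 : ((x * h * x⁻¹ * h⁻¹ : G) : G ⧸ K) =
      QuotientGroup.mk' K x * QuotientGroup.mk' K h * (QuotientGroup.mk' K x)⁻¹ *
        (QuotientGroup.mk' K h)⁻¹ := rfl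
    rw [h2, mul_inv_eq_one] at h1
    have h3 : ((ρ x y : ↥Hb) : G ⧸ K) =
      QuotientGroup.mk' K x * (y : G ⧸ K) * (QuotientGroup.mk' K x)⁻¹ :=
      MulAut.conjNormal_apply _ _
    rw [h3, ← hhy, h1]
    simp only [MulAut.one_apply, hhy]
  let ρ' : G ⧸ factorCentralizer K H →* MulAut ↥Hb := QuotientGroup.lift _ ρ hρ
  have hQ : (P.map (QuotientGroup.mk' (factorCentralizer K H))).map ρ' = P.map ρ := by
    rw [Subgroup.map_map]
    congr 1
  have hQp : IsPGroup q ↥(P.map ρ) := by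
    rw [← hQ]
    exact hPq.map ρ'
  have hcard : q ∣ Nat.card ↥Hb := by
    rw [hHb, ← relIndex_eq_card_map]
    exact hdvd
  obtain ⟨b, hb, hb1⟩ := hQp.exists_fixed_point_of_prime_dvd_card_of_fixed_point (α := ↥Hb) hcard
    (a := 1) (by intro g; exact map_one (g : MulAut ↥Hb))
  obtain ⟨h, hh, hhb⟩ := b.2
  have hhK : h ∉ K := by
    intro hK1
    apply hb1
    apply Subtype.ext
    rw [← hhb]
    simp only [OneMemClass.coe_one]
    exact ((QuotientGroup.eq_one_iff h).mpr hK1).symm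
  have hhP : h ∈ factorCentralizer K P := by
    rw [mem_factorCentralizer]
    intro x hx
    have h1 : ρ x b = b := hb ⟨ρ x, ⟨x, hx, rfl⟩⟩
    have h3 : ((ρ x b : ↥Hb) : G ⧸ K) =
      QuotientGroup.mk' K x * (b : G ⧸ K) * (QuotientGroup.mk' K x)⁻¹ :=
      MulAut.conjNormal_apply _ _
    rw [h1, ← hhb] at h3
    rw [← QuotientGroup.eq_one_iff]
    have h2 : ((h * x * h⁻¹ * x⁻¹ : G) : G ⧸ K) =
      QuotientGroup.mk' K h * QuotientGroup.mk' K x * (QuotientGroup.mk' K h)⁻¹ *
        (QuotientGroup.mk' K x)⁻¹ := rfl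
    rw [h2]
    have h4 : QuotientGroup.mk' K h * QuotientGroup.mk' K x =
        QuotientGroup.mk' K x * QuotientGroup.mk' K h := by
      conv_lhs => rw [h3]
      group
    rw [h4]
    group
  have hL : (H ⊓ factorCentralizer K P).Normal := inferInstance
  have hKL : K ≤ H ⊓ factorCentralizer K P := by
    intro k hk
    refine Subgroup.mem_inf.mpr ⟨hc.lt.le hk, ?_⟩
    rw [mem_factorCentralizer]
    intro x hx
    have h1 : x * k⁻¹ * x⁻¹ ∈ K := hK.conj_mem _ (K.inv_mem hk) x
    have h2 := K.mul_mem hk h1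
    have h3 : k * (x * k⁻¹ * x⁻¹) = k * x * k⁻¹ * x⁻¹ := by group
    rwa [h3] at h2
  rcases hc.eq_or_eq (H ⊓ factorCentralizer K P) hL hKL inf_le_left with h1 | h1
  · exact absurd (h1 ▸ (Subgroup.mem_inf.mpr ⟨hh, hhP⟩ : h ∈ H ⊓ factorCentralizer K P)) hhK
  · exact factorCentralizer_symm (inf_eq_left.mp h1)

/-- Modular law for a normal subgroup. -/
theorem sup_inf_le {G : Type} [Group G] {K P H : Subgroup G} [P.Normal] (hKH : K ≤ H) :
    (K ⊔ P) ⊓ H ≤ K ⊔ (P ⊓ H) := by
  intro x hx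
  obtain ⟨hx1, hx2⟩ := Subgroup.mem_inf.mp hx
  obtain ⟨y, hy, z, hz, rfl⟩ := Subgroup.mem_sup_of_normal_right.mp hx1
  have hzH : z ∈ H := by
    have := H.mul_mem (H.inv_mem (hKH hy)) hx2
    simpa using this
  exact Subgroup.mul_mem_sup hy (Subgroup.mem_inf.mpr ⟨hz, hzH⟩)

theorem mem_of_Np (hF : DefinedBy F f) (hf : ∀ p : ℕ, p.Prime → IsFormationOrEmpty (f p))
    (hint : ∀ (p : ℕ) (G : Type) [Group G], p.Prime → f p G → F G) {p : ℕ} (hp : p.Prime)
    {G : Type} [Group G] (h : Np (f p) p G) : F G := by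
  obtain ⟨hfin, P, hP, hPp, hfP⟩ := h
  have : Fact p.Prime := ⟨hp⟩
  refine (hF G).mpr ⟨hfin, ?_⟩
  intro K H hK hH hc q hq hdvd
  have hFP : F (G ⧸ P) := hint p _ hp hfP
  by_cases hcase : H ⊓ P ≤ K
  · -- the chief factor lies above `P`
    have hinf : (K ⊔ P) ⊓ H ≤ K := by
      refine (sup_inf_le hc.lt.le).trans ?_
      refine sup_le le_rfl ?_
      rw [inf_comm]; exact hcase
    have hinf' : (K ⊔ P) ⊓ H = K := le_antisymm hinf (le_inf le_sup_left hc.lt.le)
    have hc' : IsChiefFactor (K ⊔ P) (H ⊔ P) := by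
      refine ⟨inferInstance, inferInstance, ?_, ?_⟩
      · refine lt_of_le_of_ne (sup_le_sup_right hc.lt.le P) ?_
        intro h
        apply hc.lt.ne
        rw [← hinf', h]
        exact inf_eq_right.mpr le_sup_left
      · intro L hL h1 h2
        have h3 : K ≤ L ⊓ H := le_inf (le_sup_left.trans h1) hc.lt.le
        have h4 : L ≤ (L ⊓ H) ⊔ P := by
          intro x hx
          obtain ⟨y, hy, z, hz, rfl⟩ := Subgroup.mem_sup_of_normal_right.mp (h2 hx)
          have hyL : y ∈ L := by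
            have := L.mul_mem hx (L.inv_mem (h1 (Subgroup.mem_sup_right hz)))
            simpa using this
          exact Subgroup.mul_mem_sup (Subgroup.mem_inf.mpr ⟨hyL, hy⟩) hz
        have h5 : P ≤ L := le_sup_right.trans h1
        rcases hc.eq_or_eq (L ⊓ H) inferInstance h3 inf_le_right with h6 | h6
        · left
          rw [h6] at h4
          exact le_antisymm h4 h1
        · right
          rw [h6] at h4
          exact le_antisymm h4 (sup_le (inf_eq_right.mp h6) h5)
    have hidx : (K ⊔ P).relIndex (H ⊔ P) = K.relIndex H := by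
      have h1 : H ⊔ P = H ⊔ (K ⊔ P) := by
        rw [← sup_assoc, sup_eq_left.mpr hc.lt.le]
      rw [h1, Subgroup.relIndex_sup_right, ← Subgroup.inf_relIndex_right, hinf']
    have h1 := factor_mem hF hf P hFP (K ⊔ P) (H ⊔ P) le_sup_right hc' hq
      (by rw [hidx]; exact hdvd)
    refine (hf q hq).quot_mono _ _ ?_ h1
    intro x hx
    rw [mem_factorCentralizer] at hx ⊢
    intro y hy
    refine hinf (Subgroup.mem_inf.mpr ⟨hx y (Subgroup.mem_sup_left hy), ?_⟩)
    exact H.mul_mem (hH.conj_mem y hy x) (H.inv_mem hy)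
  · -- `H = (H ⊓ P) K`
    have hHeq : K ⊔ (H ⊓ P) = H := by
      rcases hc.eq_or_eq (K ⊔ (H ⊓ P)) inferInstance le_sup_left
        (sup_le hc.lt.le inf_le_left) with h1 | h1
      · exact absurd (le_sup_right.trans h1.le) hcase
      · exact h1
    have hidx : K.relIndex H = K.relIndex (H ⊓ P) := by
      conv_lhs => rw [← hHeq, Subgroup.relIndex_sup_left]
    have hpow : IsPGroup p ↥(H ⊓ P) := hPp.to_le inf_le_right
    obtain ⟨n, hn⟩ := IsPGroup.iff_card.mp hpow
    have h1 : q ∣ p ^ n := by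
      rw [← hn]
      exact hdvd.trans (hidx ▸ Subgroup.relIndex_dvd_card _ _)
    have hqp : q = p := (Nat.prime_dvd_prime_iff_eq hq hp).mp (hq.dvd_of_dvd_pow h1)
    subst hqp
    have h2 : P ≤ factorCentralizer K H :=
      le_factorCentralizer K H P hc hq hdvd (hPp.map _)
    exact (hf q hq).quot_mono _ _ h2 hfP

end Pool.Agent.Lib.MP_9bfc50_al
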