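import Pool.Agent.Lib.MP_9bfc50_al.Iter

namespace Pool.Agent.Lib.MP_9bfc50_al

section Module

variable (p : ℕ) (G : Type) [Group G]

/-- Left translation on functions `G → ZMod p`. -/
def Lr : G →* Module.End (ZMod p) (G → ZMod p) where
  toFun g := LinearMap.funLeft (ZMod p) (ZMod p) (fun x => g⁻¹ * x)
  map_one' := by
    ext b x
    simp [LinearMap.funLeft_apply]
  map_mul' g h := by
    refine LinearMap.ext fun b => ?_
    funext x
    simp [LinearMap.funLeft_apply, mul_assoc]

theorem Lr_apply (g : G) (b : G → ZMod p) (x : G) : Lr p G g b x = b (g⁻¹ * x) := rfl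

/-- The translation as an automorphism of the multiplicative group of functions. -/
def act : G →* MulAut (Multiplicative (G → ZMod p)) where
  toFun g :=
    { toFun := fun b => Multiplicative.ofAdd (Lr p G g (Multiplicative.toAdd b))
      invFun := fun b => Multiplicative.ofAdd (Lr p G g⁻¹ (Multiplicative.toAdd b))
      left_inv := by
        intro b
        simp only [toAdd_ofAdd]
        rw [← Module.End.mul_apply, ← map_mul]
        simp
      right_inv := by
        intro b
        simp only [toAdd_ofAdd]
        rw [← Module.End.mul_apply, ← map_mul]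
        simp
      map_mul' := by
        intro a b
        simp only [toAdd_mul, map_add, ofAdd_add] }
  map_one' := by
    ext1 b
    simp
  map_mul' g h := by
    ext1 b
    simp [map_mul]

/-- The wreath product `Z_p wr G`. -/
abbrev Wr : Type := Multiplicative (G → ZMod p) ⋊[act p G] G

variable {p G}

/-- The base element. -/
def io (b : G → ZMod p) : Wr p G := SemidirectProduct.inl (Multiplicative.ofAdd b)

/-- The top element. -/
def ka (g : G) : Wr p G := SemidirectProduct.inr g

theorem io_add (a b : G → ZMod p) : io (a + b) = io a * io b := by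
  unfold io
  rw [ofAdd_add, map_mul]

theorem io_zero : (io 0 : Wr p G) = 1 := by
  unfold io
  rw [ofAdd_zero, map_one]

theorem io_neg (b : G → ZMod p) : io (-b) = (io b)⁻¹ := by
  unfold io
  rw [ofAdd_neg, map_inv]

theorem io_injective : Function.Injective (io : (G → ZMod p) → Wr p G) := by
  intro a b h
  exact Multiplicative.ofAdd.injective (SemidirectProduct.inl_injective h)

theorem ka_conj (g : G) (b : G → ZMod p) : ka g * io b * (ka g)⁻¹ = io (Lr p G g b) := by
  unfold io ka
  have h := SemidirectProduct.inl_aut (φ := act p G) g (Multiplicative.ofAdd b)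
  rw [map_inv] at h
  rw [← h]
  rfl

theorem ka_mul (g h : G) : (ka (g * h) : Wr p G) = ka g * ka h := by
  unfold ka; rw [map_mul]

theorem io_right (b : G → ZMod p) : (io b : Wr p G).right = 1 := rfl

theorem ka_right (g : G) : (ka g : Wr p G).right = g := rfl

theorem eq_io_mul_ka (w : Wr p G) : w = io (Multiplicative.toAdd w.left) * ka w.right := by
  unfold io ka
  rw [ofAdd_toAdd, SemidirectProduct.inl_left_mul_inr_right]

theorem eq_io_of_right (w : Wr p G) (h : w.right = 1) :
    w = io (Multiplicative.toAdd w.left) := by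
  conv_lhs => rw [eq_io_mul_ka w, h]
  unfold ka
  rw [map_one, mul_one]

/-- `D o b = o b - b`. -/
def Dd (o : G) : Module.End (ZMod p) (G → ZMod p) := Lr p G o - 1

theorem Dd_apply (o : G) (b : G → ZMod p) : Dd o b = Lr p G o b - b := rfl

theorem comm_io (o : G) (b : G → ZMod p) :
    ka o * io b * (ka o)⁻¹ * (io b)⁻¹ = io (Dd o b) := by
  rw [ka_conj, ← io_neg, ← io_add, Dd_apply, sub_eq_add_neg]

/-- The translates of the operator `D` are periodic. -/
theorem exists_iter [Fact p.Prime] [Finite G] (o : G) (ho : (orderOf o).Coprime p) (n : ℕ) :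
    ∃ N : ℕ, n ≤ N ∧ (Dd o : Module.End (ZMod p) (G → ZMod p)) ^ N = Dd o := by
  have hp : p.Prime := Fact.out
  set m := orderOf o with hm
  have hmpos : 0 < m := orderOf_pos o
  refine ⟨p ^ (m.totient * (n + 1)), ?_, ?_⟩
  · have h1 : n + 1 ≤ m.totient * (n + 1) := Nat.le_mul_of_pos_left _ (Nat.totient_pos.mpr hmpos)
    have h2 : m.totient * (n + 1) < p ^ (m.totient * (n + 1)) := Nat.lt_pow_self hp.one_lt
    omega
  · have hchar : CharP (Module.End (ZMod p) (G → ZMod p)) p := by
      have : Nontrivial (G → ZMod p) := inferInstance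
      exact charP_of_injective_algebraMap
        (algebraMap (ZMod p) (Module.End (ZMod p) (G → ZMod p))).injective p
    unfold Dd
    rw [sub_pow_char_pow_of_commute (p := p) (h := Commute.one_right _), one_pow,
      ← map_pow]
    congr 2
    have h3 : p ^ (m.totient * (n + 1)) ≡ 1 [MOD m] := by
      have h4 := Nat.ModEq.pow_totient (n := m) (x := p) ho.symm
      rw [pow_mul]
      simpa using h4.pow (n + 1)
    have h5 := (pow_eq_pow_iff_modEq (x := o)).mpr (hm ▸ h3)
    rw [h5, pow_one]

end Module

end Pool.Agent.Lib.MP_9bfc50_al
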